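import Pool.Agent.H261R3.LN.Stmts
import Pool.Agent.H622R3.LH.Trans

/-! Project LN, task TransN: concatenation of homotopies through good families. -/

set_option autoImplicit false

namespace Pool.Agent.H261R3.LN

open Pool.Agent.H261R3.LH (Lip1 IsLNR clip clip_nonneg Trans_clip_le Trans_clip_eq Trans_clip_lip)

section
variable {S : Type} [MetricSpace S] {m : ℕ}

/-- coordinatewise clip -/
noncomputable def clN (s : Fin m → ℝ) : Fin m → ℝ := fun i => clip (s i)

theorem clN_cube (s : Fin m → ℝ) : InCube (clN s) :=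
  fun _ => ⟨clip_nonneg _, Trans_clip_le _⟩

theorem clN_eq {s : Fin m → ℝ} (h : InCube s) : clN s = s := by
  funext i
  exact Trans_clip_eq (h i).1 (h i).2

theorem clN_lip (a b : Fin m → ℝ) : dist (clN a) (clN b) ≤ dist a b := by
  rw [dist_pi_le_iff dist_nonneg]
  intro i
  rw [Real.dist_eq]
  refine (Trans_clip_lip (a i) (b i)).trans ?_
  rw [← Real.dist_eq]
  exact dist_le_pi_dist a b i

theorem TransN_good_clip {C : ℝ} (hC : 0 ≤ C) {G : ℤ → (Fin m → ℤ) → (Fin m → ℝ) → ℝ → S}
    (h : GoodN C G) : GoodN C (fun j k s h => G j k (clN s) (clip h)) := by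
  have c0 : clip 0 = 0 := Trans_clip_eq le_rfl zero_le_one
  have c1 : clip 1 = 1 := Trans_clip_eq zero_le_one le_rfl
  refine ⟨?_, ?_, ?_, ?_⟩
  · intro j k y a b
    exact (h.ls j k (clip y) (clN a) (clN b)).trans
      (mul_le_mul_of_nonneg_left (clN_lip a b) hC)
  · intro j k y a b
    exact (h.lh j k (clN y) (clip a) (clip b)).trans
      (mul_le_mul_of_nonneg_left (Trans_clip_lip a b) hC)
  · intro j k s y i hs hsi
    have h1 : InCube (Function.update s i 0) := by
      intro l
      by_cases hl : l = i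
      · subst hl; simp
      · rw [Function.update_of_ne hl]
        exact hs l
    rw [clN_eq hs, clN_eq h1]
    exact h.lr j k s (clip y) i hs hsi
  · intro j k b hb s hs
    have h1 : InCube (fun i => ((b i : ℝ) + s i) / 2) := by
      intro l
      have h2 := hs l
      rcases hb l with h3 | h3
      · simp only [h3]
        push_cast
        constructor <;> linarith [h2.1, h2.2]
      · simp only [h3]
        push_cast
        constructor <;> linarith [h2.1, h2.2]
    simp only [c0, c1]
    rw [clN_eq hs, clN_eq h1]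
    exact h.tb j k b hb s hs

theorem TransN_good_mono {C C' : ℝ} (hC : C ≤ C') {G : ℤ → (Fin m → ℤ) → (Fin m → ℝ) → ℝ → S}
    (h : GoodN C G) : GoodN C' G := by
  refine ⟨?_, ?_, h.lr, h.tb⟩
  · intro j k y a b
    exact (h.ls j k y a b).trans (mul_le_mul_of_nonneg_right hC dist_nonneg)
  · intro j k y a b
    exact (h.lh j k y a b).trans (mul_le_mul_of_nonneg_right hC (abs_nonneg _))

end

theorem taskTransN : TaskTransN := by
  intro S _ m C C' hC hC' G G' G'' ⟨H1, g1, l1, b1, e1⟩ ⟨H2, g2, l2, b2, e2⟩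
  refine ⟨fun t j k s h => if t ≤ 1 / 2 then H1 (2 * t) j k (clN s) (clip h) else
    H2 (2 * t - 1) j k (clN s) (clip h), ?_, ?_, ?_, ?_⟩
  · intro t
    by_cases ht : t ≤ 1 / 2
    · simp only [if_pos ht]
      exact TransN_good_mono (by linarith) (TransN_good_clip hC (g1 (2 * t)))
    · simp only [if_neg ht]
      exact TransN_good_mono (by linarith) (TransN_good_clip hC' (g2 (2 * t - 1)))
  · intro j k s h
    have hmid : H1 1 j k (clN s) (clip h) = H2 0 j k (clN s) (clip h) := by
      rw [e1 j k _ _ (clN_cube _) (clip_nonneg _) (Trans_clip_le _),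
        b2 j k _ _ (clN_cube _) (clip_nonneg _) (Trans_clip_le _)]
    have key : ∀ x y : ℝ, x ≤ 1 / 2 → 1 / 2 < y →
        dist (H1 (2 * x) j k (clN s) (clip h)) (H2 (2 * y - 1) j k (clN s) (clip h)) ≤
          (2 * C + 2 * C') * (y - x) := by
      intro x y hx hy
      have a1 := l1 j k (clN s) (clip h) (2 * x) 1
      have a2 := l2 j k (clN s) (clip h) 0 (2 * y - 1)
      simp only at a1 a2
      rw [← hmid] at a2
      have t1 : |2 * x - 1| = 1 - 2 * x := by rw [abs_of_nonpos (by linarith)]; ring
      have t2 : |0 - (2 * y - 1)| = 2 * y - 1 := by rw [abs_of_nonpos (by linarith)]; ring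
      rw [t1] at a1
      rw [t2] at a2
      have := dist_triangle (H1 (2 * x) j k (clN s) (clip h)) (H1 1 j k (clN s) (clip h))
        (H2 (2 * y - 1) j k (clN s) (clip h))
      have u1 : C * (1 - 2 * x) ≤ C * (2 * (y - x)) := mul_le_mul_of_nonneg_left (by linarith) hC
      have u2 : C' * (2 * y - 1) ≤ C' * (2 * (y - x)) := mul_le_mul_of_nonneg_left (by linarith) hC'
      linarith
    intro x y
    by_cases hx : x ≤ 1 / 2 <;> by_cases hy : y ≤ 1 / 2
    · simp only [if_pos hx, if_pos hy]
      refine (l1 j k (clN s) (clip h) (2 * x) (2 * y)).trans ?_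
      have : |2 * x - 2 * y| = 2 * |x - y| := by
        rw [← mul_sub, abs_mul, abs_of_pos (by norm_num : (0 : ℝ) < 2)]
      rw [this]
      nlinarith [abs_nonneg (x - y), mul_nonneg hC' (abs_nonneg (x - y))]
    · simp only [if_pos hx, if_neg hy]
      push Not at hy
      refine (key x y hx hy).trans (le_of_eq ?_)
      rw [abs_sub_comm, abs_of_nonneg (by linarith)]
    · simp only [if_neg hx, if_pos hy]
      push Not at hx
      rw [dist_comm]
      refine (key y x hy hx).trans (le_of_eq ?_)
      rw [abs_of_nonneg (by linarith)]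
    · simp only [if_neg hx, if_neg hy]
      refine (l2 j k (clN s) (clip h) (2 * x - 1) (2 * y - 1)).trans ?_
      have : |2 * x - 1 - (2 * y - 1)| = 2 * |x - y| := by
        rw [show 2 * x - 1 - (2 * y - 1) = 2 * (x - y) by ring, abs_mul,
          abs_of_pos (by norm_num : (0 : ℝ) < 2)]
      rw [this]
      nlinarith [abs_nonneg (x - y), mul_nonneg hC (abs_nonneg (x - y))]
  · intro j k s h hs h2 h3
    have : (0 : ℝ) ≤ 1 / 2 := by norm_num
    simp only [if_pos this, mul_zero]
    rw [clN_eq hs, Trans_clip_eq h2 h3]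
    exact b1 j k s h hs h2 h3
  · intro j k s h hs h2 h3
    have : ¬ ((1 : ℝ) ≤ 1 / 2) := by norm_num
    simp only [if_neg this]
    rw [clN_eq hs, Trans_clip_eq h2 h3, show (2 : ℝ) * 1 - 1 = 1 by norm_num]
    exact e2 j k s h hs h2 h3

end Pool.Agent.H261R3.LN
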